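import Pool.Agent.W270.TM.Glob

/-!
# The local inequality: `g R ∣ 6 ^ 8 a b N` for a minimal model `y² = x³ - a x - b`, where `g` is the
common factor of `4 a ³` and `27 b ²` and `R` the radical of the coprime triple.
-/

set_option autoImplicit false

namespace Pool.Agent.U964.SZ

open Finset
open Pool.Agent.H925R.Szpiro (D IsMin condS)
open Pool.Agent.H39R3 (isMin_prime)

theorem fac_prod (T : Finset ℕ) (hT : ∀ q ∈ T, q.Prime) (p : ℕ) :
    (∏ q ∈ T, q).factorization p = if p ∈ T then 1 else 0 := by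
  classical
  rw [Nat.factorization_prod (fun q hq => (hT q hq).ne_zero), Finsupp.finsetSum_apply]
  rw [← Finset.sum_ite_eq' T p (fun _ => 1)]
  refine Finset.sum_congr rfl fun q hq => ?_
  rw [(hT q hq).factorization, Finsupp.single_apply]

theorem loc (a b x y g : ℤ) (hmin : IsMin a b) (ha : a ≠ 0) (hb : b ≠ 0) (hxy : IsCoprime x y)
    (hx : 4 * a ^ 3 = g * x) (hy : 27 * b ^ 2 = g * y) (S : Finset ℕ) (h2S : 2 ∈ S) (h3S : 3 ∈ S) :
    g.natAbs * (∏ p ∈ (x * y * (x - y)).natAbs.primeFactors \ S, p) ∣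
      6 ^ 8 * a.natAbs * b.natAbs * condS a b := by
  classical
  have hg0 : g ≠ 0 := by
    rintro rfl
    rw [zero_mul] at hx
    exact ha (by simpa using hx)
  have hx0 : x ≠ 0 := by
    rintro rfl
    rw [mul_zero] at hx
    exact ha (by simpa using hx)
  have hy0 : y ≠ 0 := by
    rintro rfl
    rw [mul_zero] at hy
    exact hb (by simpa using hy)
  have hD : D a b = g * (x - y) := by
    unfold D
    rw [hx, hy]; ring
  have hxy0 : x - y ≠ 0 := by
    intro h
    apply hmin.1
    rw [hD, h, mul_zero]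
  set T : Finset ℕ := (x * y * (x - y)).natAbs.primeFactors \ S with hT
  have hTp : ∀ q ∈ T, q.Prime := fun q hq => Nat.prime_of_mem_primeFactors (mem_sdiff.mp hq).1
  have hR0 : (∏ p ∈ T, p) ≠ 0 := Finset.prod_ne_zero_iff.mpr fun q hq => (hTp q hq).ne_zero
  have hc0 : condS a b ≠ 0 := by
    unfold condS
    refine Finset.prod_ne_zero_iff.mpr fun q hq => ?_
    have hq0 : q ≠ 0 := (Nat.prime_of_mem_primeFactors (mem_filter.mp hq).1).ne_zero
    split_ifs
    · exact pow_ne_zero 2 hq0
    · exact hq0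
  have hA0 : a.natAbs ≠ 0 := Int.natAbs_ne_zero.mpr ha
  have hB0 : b.natAbs ≠ 0 := Int.natAbs_ne_zero.mpr hb
  have hG0 : g.natAbs ≠ 0 := Int.natAbs_ne_zero.mpr hg0
  have hX0 : x.natAbs ≠ 0 := Int.natAbs_ne_zero.mpr hx0
  have hY0 : y.natAbs ≠ 0 := Int.natAbs_ne_zero.mpr hy0
  have h60 : (6 : ℕ) ^ 8 ≠ 0 := by norm_num
  rw [← Nat.factorization_prime_le_iff_dvd (mul_ne_zero hG0 hR0)
    (mul_ne_zero (mul_ne_zero (mul_ne_zero h60 hA0) hB0) hc0)]
  intro p hp
  rw [Nat.factorization_mul hG0 hR0, Nat.factorization_mul (mul_ne_zero (mul_ne_zero h60 hA0) hB0) hc0,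
    Nat.factorization_mul (mul_ne_zero h60 hA0) hB0, Nat.factorization_mul h60 hA0]
  simp only [Finsupp.add_apply]
  rw [fac_prod T hTp p]
  -- the valuations
  have e1 : (4 : ℕ).factorization p + 3 * a.natAbs.factorization p =
      g.natAbs.factorization p + x.natAbs.factorization p := by
    have h1 : 4 * a.natAbs ^ 3 = g.natAbs * x.natAbs := by
      rw [← Int.natAbs_mul, ← hx, Int.natAbs_mul, Int.natAbs_pow]
      rfl
    have h2 := congrArg (fun n : ℕ => n.factorization p) h1
    rw [Nat.factorization_mul (by norm_num) (pow_ne_zero 3 hA0), Nat.factorization_mul hG0 hX0,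
      Nat.factorization_pow] at h2
    simpa using h2
  have e2 : (27 : ℕ).factorization p + 2 * b.natAbs.factorization p =
      g.natAbs.factorization p + y.natAbs.factorization p := by
    have h1 : 27 * b.natAbs ^ 2 = g.natAbs * y.natAbs := by
      rw [← Int.natAbs_mul, ← hy, Int.natAbs_mul, Int.natAbs_pow]
      rfl
    have h2 := congrArg (fun n : ℕ => n.factorization p) h1
    rw [Nat.factorization_mul (by norm_num) (pow_ne_zero 2 hB0), Nat.factorization_mul hG0 hY0,
      Nat.factorization_pow] at h2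
    simpa using h2
  have e3 : ¬ (4 ≤ a.natAbs.factorization p ∧ 6 ≤ b.natAbs.factorization p) := by
    rintro ⟨h1, h2⟩
    refine isMin_prime hmin p hp.two_le ?_ ?_
    · rw [← Int.natCast_pow, Int.natCast_dvd]
      exact (hp.pow_dvd_iff_le_factorization hA0).mpr h1
    · rw [← Int.natCast_pow, Int.natCast_dvd]
      exact (hp.pow_dvd_iff_le_factorization hB0).mpr h2
  have e4 : x.natAbs.factorization p = 0 ∨ y.natAbs.factorization p = 0 := by
    by_contra hcon
    push Not at hcon
    have h1 : p ∣ x.natAbs := Nat.dvd_of_factorization_pos hcon.1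
    have h2 : p ∣ y.natAbs := Nat.dvd_of_factorization_pos hcon.2
    have h3 := (Int.isCoprime_iff_gcd_eq_one.mp hxy)
    have h4 : p ∣ Int.gcd x y := Nat.dvd_gcd h1 h2
    rw [h3] at h4
    exact hp.one_lt.ne' (Nat.dvd_one.mp h4)
  obtain ⟨α, hα⟩ : ∃ α : ℕ, α = a.natAbs.factorization p := ⟨_, rfl⟩
  obtain ⟨β, hβ⟩ : ∃ β : ℕ, β = b.natAbs.factorization p := ⟨_, rfl⟩
  obtain ⟨γ, hγ⟩ : ∃ γ : ℕ, γ = g.natAbs.factorization p := ⟨_, rfl⟩
  obtain ⟨ξ, hξ⟩ : ∃ ξ : ℕ, ξ = x.natAbs.factorization p := ⟨_, rfl⟩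
  obtain ⟨η, hη⟩ : ∃ η : ℕ, η = y.natAbs.factorization p := ⟨_, rfl⟩
  rw [← hα, ← hγ, ← hξ] at e1
  rw [← hβ, ← hγ, ← hη] at e2
  rw [← hα, ← hβ] at e3
  rw [← hξ, ← hη] at e4
  rw [← hα, ← hβ, ← hγ]
  rcases Nat.lt_or_ge p 5 with h5 | h5
  · -- `p = 2, 3`
    have hp23 : p = 2 ∨ p = 3 := by
      have h2 := hp.two_le
      have h4 : p ≠ 4 := by
        rintro rfl
        exact absurd hp (by norm_num)
      omega
    have hpS : p ∉ T := by
      rw [hT, mem_sdiff]
      rintro ⟨-, h⟩
      rcases hp23 with rfl | rfl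
      · exact h h2S
      · exact h h3S
    rw [if_neg hpS]
    have h8 : 8 ≤ ((6 : ℕ) ^ 8).factorization p := by
      rw [← hp.pow_dvd_iff_le_factorization h60]
      apply pow_dvd_pow_of_dvd
      rcases hp23 with rfl | rfl
      · norm_num
      · norm_num
    have h4 : (4 : ℕ).factorization p ≤ 2 := by
      by_contra hcon
      push Not at hcon
      have h9 := (hp.pow_dvd_iff_le_factorization (n := 4) (k := 3) (by norm_num)).mpr hcon
      have h10 := Nat.le_of_dvd (by norm_num) h9
      have h11 : 2 ^ 3 ≤ p ^ 3 := Nat.pow_le_pow_left hp.two_le 3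
      omega
    have h27 : (27 : ℕ).factorization p ≤ 4 := by
      by_contra hcon
      push Not at hcon
      have h9 := (hp.pow_dvd_iff_le_factorization (n := 27) (k := 5) (by norm_num)).mpr hcon
      have h10 := Nat.le_of_dvd (by norm_num) h9
      have h11 : 2 ^ 5 ≤ p ^ 5 := Nat.pow_le_pow_left hp.two_le 5
      omega
    have h27' : p = 2 → (27 : ℕ).factorization p = 0 := by
      rintro rfl
      exact Nat.factorization_eq_zero_of_not_dvd (by norm_num)
    have h27'' : p = 3 → (27 : ℕ).factorization p ≤ 3 := by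
      rintro rfl
      by_contra hcon
      push Not at hcon
      have h9 := (Nat.prime_three.pow_dvd_iff_le_factorization (n := 27) (k := 4)
        (by norm_num)).mpr hcon
      norm_num at h9
    rcases hp23 with h | h
    · have := h27' h
      omega
    · have := h27'' h
      omega
  · -- `p ≥ 5`
    have h4 : (4 : ℕ).factorization p = 0 := by
      apply Nat.factorization_eq_zero_of_not_dvd
      intro h
      have := Nat.le_of_dvd (by norm_num) h
      omega
    have h27 : (27 : ℕ).factorization p = 0 := by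
      apply Nat.factorization_eq_zero_of_not_dvd
      intro h
      have h1 : p ∣ 3 ^ 3 := by norm_num; exact h
      have h2 := hp.dvd_of_dvd_pow h1
      have := Nat.le_of_dvd (by norm_num) h2
      omega
    rw [h4, zero_add] at e1
    rw [h27, zero_add] at e2
    -- the conductor
    have hpD : (p : ℤ) ∣ D a b → p ∈ (D a b).natAbs.primeFactors.filter (fun p => 5 ≤ p) := by
      intro h
      rw [mem_filter, Nat.mem_primeFactors]
      exact ⟨⟨hp, Int.natCast_dvd.mp h, Int.natAbs_ne_zero.mpr hmin.1⟩, h5⟩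
    have hcond : (p : ℤ) ∣ D a b → (if (p : ℤ) ∣ a then p ^ 2 else p) ∣ condS a b := by
      intro h
      unfold condS
      exact Finset.dvd_prod_of_mem (fun p : ℕ => if (p : ℤ) ∣ a then p ^ 2 else p) (hpD h)
    have hgD : γ ≠ 0 → (p : ℤ) ∣ D a b := by
      intro h
      have h1 : p ∣ g.natAbs := Nat.dvd_of_factorization_pos (by rw [← hγ]; exact h)
      rw [hD]
      exact (Int.natCast_dvd.mpr h1).mul_right _
    have hαp : α ≠ 0 ↔ (p : ℤ) ∣ a := by
      rw [Int.natCast_dvd, hp.dvd_iff_one_le_factorization hA0, ← hα]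
      omega
    by_cases hγ0 : γ = 0
    · -- no common factor
      by_cases hpT : p ∈ T
      · rw [if_pos hpT, hγ0]
        rw [hT, mem_sdiff, Nat.mem_primeFactors, Int.natAbs_mul, Int.natAbs_mul] at hpT
        rcases (Nat.Prime.dvd_mul hp).mp hpT.1.2.1 with h | h
        · rcases (Nat.Prime.dvd_mul hp).mp h with h | h
          · have := (hp.dvd_iff_one_le_factorization hX0).mp h
            omega
          · have := (hp.dvd_iff_one_le_factorization hY0).mp h
            omega
        · have h1 : (p : ℤ) ∣ D a b := by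
            rw [hD]
            exact (Int.natCast_dvd.mpr h).mul_left _
          have h2 := hcond h1
          have h3 : p ∣ condS a b := by
            refine dvd_trans ?_ h2
            split_ifs
            · exact dvd_pow_self p (by norm_num)
            · exact dvd_rfl
          have := (hp.dvd_iff_one_le_factorization hc0).mp h3
          omega
      · rw [if_neg hpT, hγ0]
        omega
    · have hpD' := hgD hγ0
      have hα0 : α ≠ 0 := by omega
      have h2 := hcond hpD'
      rw [if_pos (hαp.mp hα0)] at h2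
      have h3 := (hp.pow_dvd_iff_le_factorization hc0).mp h2
      have h6 : (if p ∈ T then 1 else 0) ≤ 1 := by split_ifs <;> omega
      omega

end Pool.Agent.U964.SZ
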