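import Pool.Agent.U964.SZ.BF2
import Pool.Agent.U964.SZ.Loc

/-!
# The modified Szpiro inequality for all curves with a sparse triple
-/

set_option autoImplicit false

namespace Pool.Agent.U964.SZ

open Polynomial
open Pool.Agent.Y724.T4 (R6.IsSUnit)
open Pool.Agent.Y670.RD (fv)
open Pool.Agent.H925R.Szpiro (D IsMin condS)

/-- a sum of `l` `S`-units with integer coefficients of absolute value at most `R` -/
def Sp (S : Finset ℕ) (l : ℕ) (R : ℝ) (z : ℚ) : Prop :=
  ∃ (u : Fin l → ℚ) (k : Fin l → ℤ), (∀ j, Pool.Agent.Y724.T4.R6.IsSUnit S (u j)) ∧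
    (∀ j, |(k j : ℝ)| ≤ R) ∧ z = ∑ j, u j * k j

theorem Sp.mono {S : Finset ℕ} {l : ℕ} {R R' : ℝ} {z : ℚ} (h : Sp S l R z) (hR : R ≤ R') :
    Sp S l R' z := by
  obtain ⟨u, k, h1, h2, h3⟩ := h
  exact ⟨u, k, h1, fun j => (h2 j).trans hR, h3⟩

theorem Sp.add {S : Finset ℕ} {l l' : ℕ} {R : ℝ} {z z' : ℚ} (h : Sp S l R z) (h' : Sp S l' R z') :
    Sp S (l + l') R (z + z') := by
  obtain ⟨u, k, h1, h2, h3⟩ := h
  obtain ⟨u', k', h1', h2', h3'⟩ := h'
  refine ⟨Fin.append u u', Fin.append k k', fun j => ?_, fun j => ?_, ?_⟩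
  · refine Fin.addCases (fun i => ?_) (fun i => ?_) j
    · rw [Fin.append_left]; exact h1 i
    · rw [Fin.append_right]; exact h1' i
  · refine Fin.addCases (fun i => ?_) (fun i => ?_) j
    · rw [Fin.append_left]; exact h2 i
    · rw [Fin.append_right]; exact h2' i
  · rw [Fin.sum_univ_add, h3, h3']
    congr 1
    · exact Finset.sum_congr rfl fun i _ => by rw [Fin.append_left, Fin.append_left]
    · exact Finset.sum_congr rfl fun i _ => by rw [Fin.append_right, Fin.append_right]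

theorem Sp.zero (S : Finset ℕ) (l : ℕ) {R : ℝ} (hR : 0 ≤ R) : Sp S l R 0 := by
  refine ⟨fun _ => 1, fun _ => 0, fun _ => ⟨1, fun _ => 0, Or.inl rfl, ?_⟩, fun _ => ?_, ?_⟩
  · simp
  · simpa using hR
  · simp

theorem Sp.pad {S : Finset ℕ} {l : ℕ} {R : ℝ} {z : ℚ} (h : Sp S l R z) (hR : 0 ≤ R) (l' : ℕ) :
    Sp S (l + l') R z := by
  have := h.add (Sp.zero S l' hR)
  rwa [add_zero] at this

/-- the polynomial of the form `x y (x - y)` in the variables `x`, `x + y` -/
noncomputable def gp : ℤ[X] := C (-2) * X ^ 3 + C 3 * X ^ 2 + C (-1) * X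

theorem gp_deg : gp.natDegree = 3 := by
  unfold gp; compute_degree!

theorem fv_gp (x y : ℤ) : fv 3 gp x (x + y) = x * y * (x - y) := by
  unfold fv gp
  simp only [coeff_add, coeff_C_mul, coeff_X_pow, coeff_X, Finset.sum_range_succ,
    Finset.sum_range_zero]
  norm_num
  ring

theorem gp_sqf : Squarefree (gp.map (Int.castRingHom ℚ)) := by
  have e0 : gp.map (Int.castRingHom ℚ) =
      C (-2 : ℚ) * ((X - C 0) * (X - C 1) * (X - C (1 / 2))) := by
    unfold gp
    simp only [Polynomial.map_add, Polynomial.map_mul, Polynomial.map_C, Polynomial.map_pow,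
      Polynomial.map_X]
    have e1 : (Int.castRingHom ℚ) (-2) = -2 := by simp
    have e2 : (Int.castRingHom ℚ) 3 = 3 := by simp
    have e3 : (Int.castRingHom ℚ) (-1) = -1 := by simp
    rw [e1, e2, e3, C_0, C_1]
    have h1 : (C (3 : ℚ) : ℚ[X]) = C (-2) * (-1 - C (1 / 2)) := by
      rw [← C_1, ← C_neg, ← C_sub, ← C_mul]; congr 1; norm_num
    have h2 : (C (-1 : ℚ) : ℚ[X]) = C (-2) * C (1 / 2) := by
      rw [← C_mul]; congr 1; norm_num
    rw [h1, h2]
    ring
  rw [e0]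
  have h1 : IsCoprime (X - C (0 : ℚ)) (X - C 1) :=
    isCoprime_X_sub_C_of_isUnit_sub (by rw [isUnit_iff_ne_zero]; norm_num)
  have h2 : IsCoprime (X - C (0 : ℚ)) (X - C (1 / 2)) :=
    isCoprime_X_sub_C_of_isUnit_sub (by rw [isUnit_iff_ne_zero]; norm_num)
  have h3 : IsCoprime (X - C (1 : ℚ)) (X - C (1 / 2)) :=
    isCoprime_X_sub_C_of_isUnit_sub (by rw [isUnit_iff_ne_zero]; norm_num)
  have h4 : ((X - C (0 : ℚ)) * (X - C 1) * (X - C (1 / 2))).Separable :=
    ((separable_X_sub_C).mul (separable_X_sub_C) h1).mul separable_X_sub_C (h2.mul_left h3)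
  have h5 := h4.squarefree
  have hu : IsUnit (C (-2 : ℚ)) := isUnit_C.mpr (by rw [isUnit_iff_ne_zero]; norm_num)
  intro x hx
  exact h5 x ((hu.dvd_mul_left).mp hx)

/-- the modified Szpiro inequality for the minimal models `y² = x³ - a x - b` -/
theorem uni (S : Finset ℕ) (hS : ∀ p ∈ S, p.Prime) (h2S : 2 ∈ S) (h3S : 3 ∈ S) (l m : ℕ)
    (B ε : ℝ) (hε : 0 < ε) :
    ∃ (δ C : ℝ), 0 < δ ∧ 0 < C ∧ ∀ (a b x y : ℤ), IsMin a b → IsCoprime x y →
      x * (27 * b ^ 2) = y * (4 * a ^ 3) → ∀ (k : ℕ) (τ : ℚ), 0 < k →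
      ((k * ∏ p ∈ (x * y * (x - y)).natAbs.primeFactors \ S, p : ℕ) : ℚ) ^ m =
        x * y * (x - y) * τ →
      Sp S l (B * (max |(x : ℝ)| |(y : ℝ)|) ^ δ) x → Sp S l (B * (max |(x : ℝ)| |(y : ℝ)|) ^ δ) y →
      Sp S l (B * (max |(x : ℝ)| |(y : ℝ)|) ^ δ)
        (k * ∏ p ∈ (x * y * (x - y)).natAbs.primeFactors \ S, p : ℕ) →
      Sp S l (B * (max |(x : ℝ)| |(y : ℝ)|) ^ δ) τ →
      max (|(a : ℝ)| ^ 3) ((b : ℝ) ^ 2) ≤ C * ((k : ℝ) * condS a b) ^ (6 + ε) := by
  classical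
  set ε2 : ℝ := ε / (36 + 5 * ε) with hε2
  have hε20 : 0 < ε2 := by positivity
  set ε1 : ℝ := ε2 / (1 + ε2) with hε1
  have hε10 : 0 < ε1 := by positivity
  have h12 : (1 - ε1) * (1 + ε2) = 1 := by
    rw [hε1]; field_simp; ring
  set q : ℝ := 1 - 5 / 6 * (1 + ε2) with hq
  have hq6 : (6 + ε) * q = 1 + ε2 := by
    rw [hq, hε2]; field_simp; ring
  have hq0 : 0 < q := by
    by_contra hcon
    push Not at hcon
    have : (6 + ε) * q ≤ 0 := mul_nonpos_of_nonneg_of_nonpos (by linarith) hcon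
    linarith
  obtain ⟨δ, C0, hδ, hbf⟩ := bf_core ℚ (Module.finrank_self ℚ) gp 3 gp_deg (by norm_num) gp_sqf S hS
    (l + l) m (2 * |B|) ε1 hε10
  set δ1 : ℝ := min δ 1 with hδ1
  have hδ10 : 0 < δ1 := lt_min hδ one_pos
  set C1 : ℝ := (1 + ε2) * (8 * Real.log 6 + |C0|) + Real.log 2 with hC1
  have hlog6 : 0 ≤ Real.log 6 := Real.log_nonneg (by norm_num)
  have hlog2 : 0 ≤ Real.log 2 := Real.log_nonneg (by norm_num)
  refine ⟨δ1, Real.exp (C1 / q), hδ10, Real.exp_pos _, ?_⟩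
  intro a b x y hmin hxy hrel k τ hk hτ hsx hsy hsρ hsτ
  set Rd : ℕ := ∏ p ∈ (x * y * (x - y)).natAbs.primeFactors \ S, p with hRd
  have hRd0 : 0 < Rd := Finset.prod_pos fun p hp =>
    (Nat.prime_of_mem_primeFactors (Finset.mem_sdiff.mp hp).1).pos
  set ρ : ℕ := k * Rd with hρ
  have hρ0 : 0 < ρ := Nat.mul_pos hk hRd0
  have hne : (x : ℚ) * y * (x - y) * τ ≠ 0 := by
    rw [← hτ]
    exact pow_ne_zero _ (by exact_mod_cast hρ0.ne')
  have hx0 : x ≠ 0 := by
    rintro rfl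
    apply hne
    simp
  have hy0 : y ≠ 0 := by
    rintro rfl
    apply hne
    simp
  have ha : a ≠ 0 := by
    rintro rfl
    have h1 : x * (27 * b ^ 2) = 0 := by rw [hrel]; ring
    have h2 : b = 0 := by
      rcases mul_eq_zero.mp h1 with h | h
      · exact absurd h hx0
      · simpa using h
    apply hmin.1
    unfold D
    rw [h2]; ring
  have hb : b ≠ 0 := by
    rintro rfl
    have h1 : y * (4 * a ^ 3) = 0 := by rw [← hrel]; ring
    rcases mul_eq_zero.mp h1 with h | h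
    · exact hy0 h
    · exact ha (by simpa using h)
  -- the common factor
  obtain ⟨g, hg⟩ : x ∣ 4 * a ^ 3 := by
    have h1 : x ∣ y * (4 * a ^ 3) := ⟨27 * b ^ 2, hrel.symm⟩
    exact hxy.dvd_of_dvd_mul_left h1
  have hgx : 4 * a ^ 3 = g * x := by rw [hg]; ring
  have hgy : 27 * b ^ 2 = g * y := by
    have h1 : x * (27 * b ^ 2) = x * (g * y) := by rw [hrel, hgx]; ring
    exact mul_left_cancel₀ hx0 h1
  have hg0 : g ≠ 0 := by
    rintro rfl
    rw [zero_mul] at hgx
    exact ha (by simpa using hgx)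
  have hloc := loc a b x y g hmin ha hb hxy hgx hgy S h2S h3S
  rw [← hRd] at hloc
  -- sparse points
  set M : ℝ := max |(x : ℝ)| |(y : ℝ)| with hM
  have hxR : (1 : ℝ) ≤ |(x : ℝ)| := by exact_mod_cast Int.one_le_abs hx0
  have hyR : (1 : ℝ) ≤ |(y : ℝ)| := by exact_mod_cast Int.one_le_abs hy0
  have hM1 : 1 ≤ M := hxR.trans (le_max_left _ _)
  have hst : IsCoprime x (x + y) := by
    obtain ⟨u, v, huv⟩ := hxy
    exact ⟨u - v, v, by linear_combination huv⟩
  set M' : ℝ := max |(x : ℝ)| |((x + y : ℤ) : ℝ)| with hM'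
  have hM'1 : 1 ≤ M' := hxR.trans (le_max_left _ _)
  have hMM' : M ≤ 2 * M' := by
    have h1 : |(x : ℝ)| ≤ M' := le_max_left _ _
    have h2 : |((x + y : ℤ) : ℝ)| ≤ M' := le_max_right _ _
    refine max_le (by linarith) ?_
    have h3 : (y : ℝ) = ((x + y : ℤ) : ℝ) - x := by push_cast; ring
    rw [h3]
    exact (abs_sub _ _).trans (by linarith)
  have hR : B * M ^ δ1 ≤ 2 * |B| * M' ^ δ := by
    have h1 : M ^ δ1 ≤ 2 * M' ^ δ := by
      calc M ^ δ1 ≤ (2 * M') ^ δ1 := Real.rpow_le_rpow (by linarith) hMM' hδ10.le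
        _ = 2 ^ δ1 * M' ^ δ1 := Real.mul_rpow (by norm_num) (by linarith)
        _ ≤ 2 ^ (1 : ℝ) * M' ^ δ := by
            refine mul_le_mul (Real.rpow_le_rpow_of_exponent_le (by norm_num) (min_le_right _ _))
              (Real.rpow_le_rpow_of_exponent_le hM'1 (min_le_left _ _)) (by positivity)
              (by positivity)
        _ = 2 * M' ^ δ := by rw [Real.rpow_one]
    have h2 : 0 ≤ M ^ δ1 := by positivity
    calc B * M ^ δ1 ≤ |B| * M ^ δ1 := mul_le_mul_of_nonneg_right (le_abs_self B) h2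
      _ ≤ |B| * (2 * M' ^ δ) := mul_le_mul_of_nonneg_left h1 (abs_nonneg B)
      _ = _ := by ring
  have hR0 : 0 ≤ 2 * |B| * M' ^ δ := by positivity
  have hbf1 := hbf x (x + y) hst ρ τ hρ0 (by rw [hτ, fv_gp]; push_cast; ring) (fun i => by
    fin_cases i
    · exact (hsx.mono hR).pad hR0 l
    · have h1 := (hsx.mono hR).add (hsy.mono hR)
      obtain ⟨u, kk, e1, e2, e3⟩ := h1
      refine ⟨u, kk, e1, e2, ?_⟩
      rw [← e3]
      change ((x + y : ℤ) : ℚ) = _
      push_cast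
      ring
    · exact (hsρ.mono hR).pad hR0 l
    · exact (hsτ.mono hR).pad hR0 l)
  rw [← hM'] at hbf1
  -- logarithms
  have hkR : (1 : ℝ) ≤ k := by exact_mod_cast hk
  have hRdR : (1 : ℝ) ≤ Rd := by exact_mod_cast hRd0
  have hgR : (1 : ℝ) ≤ (g.natAbs : ℝ) := by
    have := Int.natAbs_pos.mpr hg0
    exact_mod_cast this
  have hcp : 0 < condS a b := by
    unfold condS
    refine Finset.prod_pos fun p hp => ?_
    have hp0 : 0 < p := (Nat.prime_of_mem_primeFactors (Finset.mem_filter.mp hp).1).pos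
    split_ifs
    · exact pow_pos hp0 2
    · exact hp0
  have hKR : (1 : ℝ) ≤ condS a b := by exact_mod_cast hcp
  have haR : (1 : ℝ) ≤ |(a : ℝ)| := by exact_mod_cast Int.one_le_abs ha
  have hbR : (1 : ℝ) ≤ |(b : ℝ)| := by exact_mod_cast Int.one_le_abs hb
  have hlM : Real.log M ≤ Real.log 2 + Real.log M' := by
    rw [← Real.log_mul (by norm_num) (by linarith)]
    exact Real.log_le_log (by linarith) hMM'
  have hlρ : Real.log ρ = Real.log k + Real.log Rd := by
    rw [hρ]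
    push_cast
    rw [Real.log_mul (by linarith) (by linarith)]
  have hlloc : Real.log (g.natAbs : ℝ) + Real.log Rd ≤
      8 * Real.log 6 + Real.log |(a : ℝ)| + Real.log |(b : ℝ)| + Real.log (condS a b) := by
    have h1 : ((g.natAbs * Rd : ℕ) : ℝ) ≤ ((6 ^ 8 * a.natAbs * b.natAbs * condS a b : ℕ) : ℝ) := by
      have h2 := Nat.le_of_dvd (by
        have h3 := Int.natAbs_pos.mpr ha
        have h4 := Int.natAbs_pos.mpr hb
        positivity) hloc
      exact_mod_cast h2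
    push_cast at h1
    rw [← Int.cast_abs, ← Int.cast_abs]
    have h2 := Real.log_le_log (by positivity) h1
    have hab1 : (0 : ℝ) < ((|a| : ℤ) : ℝ) := by rw [Int.cast_abs]; linarith
    have hab2 : (0 : ℝ) < ((|b| : ℤ) : ℝ) := by rw [Int.cast_abs]; linarith
    have hg2 : (0 : ℝ) < ((|g| : ℤ) : ℝ) := by
      rw [Nat.cast_natAbs] at hgR
      linarith
    rw [Nat.cast_natAbs, Nat.cast_natAbs, Nat.cast_natAbs] at h2
    rw [Nat.cast_natAbs]
    rw [Real.log_mul hg2.ne' (by linarith), Real.log_mul (by positivity) (by linarith),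
      Real.log_mul (by positivity) hab2.ne', Real.log_mul (by positivity) hab1.ne'] at h2
    have h68 : Real.log 1679616 = 8 * Real.log 6 := by
      have h3 : (1679616 : ℝ) = 6 ^ 8 := by norm_num
      rw [h3, Real.log_pow]
      norm_num
    rw [h68] at h2
    linarith
  set H : ℝ := max (4 * |(a : ℝ)| ^ 3) (27 * |(b : ℝ)| ^ 2) with hH
  have hHa : 4 * |(a : ℝ)| ^ 3 ≤ H := le_max_left _ _
  have hHb : 27 * |(b : ℝ)| ^ 2 ≤ H := le_max_right _ _
  have hH1 : 1 ≤ H := by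
    have : (1 : ℝ) ≤ |(a : ℝ)| ^ 3 := one_le_pow₀ haR
    linarith
  have hHg : H = (g.natAbs : ℝ) * M := by
    have e1 : 4 * |(a : ℝ)| ^ 3 = (g.natAbs : ℝ) * |(x : ℝ)| := by
      have h1 : (4 : ℝ) * (a : ℝ) ^ 3 = (g : ℝ) * x := by exact_mod_cast hgx
      have h2 := congrArg abs h1
      rw [abs_mul, abs_mul, abs_pow, abs_of_pos (by norm_num : (0 : ℝ) < 4)] at h2
      rw [h2, Nat.cast_natAbs, Int.cast_abs]
    have e2 : 27 * |(b : ℝ)| ^ 2 = (g.natAbs : ℝ) * |(y : ℝ)| := by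
      have h1 : (27 : ℝ) * (b : ℝ) ^ 2 = (g : ℝ) * y := by exact_mod_cast hgy
      have h2 := congrArg abs h1
      rw [abs_mul, abs_mul, abs_pow, abs_of_pos (by norm_num : (0 : ℝ) < 27)] at h2
      rw [h2, Nat.cast_natAbs, Int.cast_abs]
    rw [hH, e1, e2, hM, mul_max_of_nonneg _ _ (by linarith)]
  have hlH : Real.log H = Real.log (g.natAbs : ℝ) + Real.log M := by
    rw [hHg, Real.log_mul (by linarith) (by linarith)]
  have hla : 3 * Real.log |(a : ℝ)| ≤ Real.log H := by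
    have h1 : |(a : ℝ)| ^ 3 ≤ H := by
      have : (0 : ℝ) ≤ |(a : ℝ)| ^ 3 := by positivity
      linarith
    have h2 := Real.log_le_log (by positivity) h1
    rw [Real.log_pow] at h2
    exact_mod_cast h2
  have hlb : 2 * Real.log |(b : ℝ)| ≤ Real.log H := by
    have h1 : |(b : ℝ)| ^ 2 ≤ H := by
      have : (0 : ℝ) ≤ |(b : ℝ)| ^ 2 := by positivity
      linarith
    have h2 := Real.log_le_log (by positivity) h1
    rw [Real.log_pow] at h2
    exact_mod_cast h2
  have hlg : 0 ≤ Real.log (g.natAbs : ℝ) := Real.log_nonneg hgR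
  have hM'l : Real.log M' ≤ (1 + ε2) * (Real.log ρ + |C0|) := by
    have h1 : (1 - ε1) * Real.log M' ≤ Real.log ρ + |C0| := by
      have h2 := le_abs_self C0
      have h3 : ((3 : ℕ) : ℝ) - 2 - ε1 = 1 - ε1 := by push_cast; ring
      rw [h3] at hbf1
      linarith
    have h4 := mul_le_mul_of_nonneg_left h1 (by linarith : (0 : ℝ) ≤ 1 + ε2)
    calc Real.log M' = ((1 - ε1) * (1 + ε2)) * Real.log M' := by rw [h12, one_mul]
      _ = (1 + ε2) * ((1 - ε1) * Real.log M') := by ring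
      _ ≤ _ := h4
  have hmain : Real.log H * q ≤ (1 + ε2) * (Real.log k + Real.log (condS a b)) + C1 := by
    have h1 : Real.log H ≤ (1 + ε2) * (8 * Real.log 6 + 5 / 6 * Real.log H +
        Real.log (condS a b) + Real.log k + |C0|) + Real.log 2 := by
      have h2 : Real.log (g.natAbs : ℝ) ≤ (1 + ε2) * Real.log (g.natAbs : ℝ) := by nlinarith
      have h3 : (1 + ε2) * (Real.log (g.natAbs : ℝ) + Real.log Rd) ≤
          (1 + ε2) * (8 * Real.log 6 + 5 / 6 * Real.log H + Real.log (condS a b)) := by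
        refine mul_le_mul_of_nonneg_left ?_ (by linarith)
        linarith
      rw [hlρ] at hM'l
      nlinarith
    rw [hq, hC1]
    nlinarith
  have hmain2 : Real.log H ≤ (6 + ε) * (Real.log k + Real.log (condS a b)) + C1 / q := by
    have h1 : Real.log H ≤ ((1 + ε2) * (Real.log k + Real.log (condS a b)) + C1) / q := by
      rw [le_div_iff₀ hq0]
      exact hmain
    have h2 : ((1 + ε2) * (Real.log k + Real.log (condS a b)) + C1) / q =
        (6 + ε) * (Real.log k + Real.log (condS a b)) + C1 / q := by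
      rw [← hq6]
      field_simp
    rw [h2] at h1
    exact h1
  have hfin : H ≤ Real.exp (C1 / q) * ((k : ℝ) * condS a b) ^ (6 + ε) := by
    have h1 : H = Real.exp (Real.log H) := (Real.exp_log (by linarith)).symm
    have hkK : (0 : ℝ) < (k : ℝ) * condS a b := by positivity
    rw [h1, Real.rpow_def_of_pos hkK, ← Real.exp_add, Real.log_mul (by linarith) (by linarith)]
    apply Real.exp_le_exp.mpr
    linarith
  refine le_trans (max_le ?_ ?_) hfin
  · have : (0 : ℝ) ≤ |(a : ℝ)| ^ 3 := by positivity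
    linarith
  · have : (0 : ℝ) ≤ |(b : ℝ)| ^ 2 := by positivity
    rw [← sq_abs]
    linarith

end Pool.Agent.U964.SZ
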