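import Mathlib
import Pool.Agent.Y724.T4.ABQ
import Pool.Agent.Y670.RD.Frm

/-!
# Binary forms at sparse points: the abc inequality for the values of a form
-/

set_option autoImplicit false

namespace Pool.Agent.U964.SZ

open MvPolynomial NumberField Pool.Agent.Y724.T4
open Pool.Agent.Y670.RD (fv fv_le fv_zero fv_eq)

/-- no equations -/
noncomputable def G0 : Fin 0 → MvPolynomial (Fin (1 + 0 + 1)) ℤ := fun i => i.elim0

/-- the form -/
noncomputable def frm (γ : ℕ) (g : Polynomial ℤ) : MvPolynomial (Fin (1 + 0 + 1)) ℤ :=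
  ∑ i ∈ Finset.range (γ + 1), C (g.coeff i) * X 0 ^ i * X 1 ^ (γ - i)

lemma frm_hom (γ : ℕ) (g : Polynomial ℤ) : (frm γ g).IsHomogeneous γ := by
  unfold frm
  refine IsHomogeneous.sum _ _ _ fun i hi => ?_
  have hi' : i ≤ γ := by have := Finset.mem_range.mp hi; omega
  have h1 := ((isHomogeneous_C (Fin (1 + 0 + 1)) (g.coeff i)).mul
    ((isHomogeneous_X ℤ (0 : Fin (1 + 0 + 1))).pow i)).mul
      ((isHomogeneous_X ℤ (1 : Fin (1 + 0 + 1))).pow (γ - i))
  have h2 : 0 + 1 * i + 1 * (γ - i) = γ := by omega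
  rw [h2] at h1
  exact h1

lemma frm_eval {L : Type} [Field L] (γ : ℕ) (g : Polynomial ℤ) (z : Fin (1 + 0 + 1) → L) :
    aeval z (frm γ g) = ∑ i ∈ Finset.range (γ + 1), (g.coeff i : L) * z 0 ^ i * z 1 ^ (γ - i) := by
  unfold frm
  rw [map_sum]
  refine Finset.sum_congr rfl fun i _ => ?_
  rw [map_mul, map_mul, map_pow, map_pow, aeval_X, aeval_X, aeval_C]
  simp

lemma frm_int {L : Type} [Field L] (γ : ℕ) (g : Polynomial ℤ) (s t : ℤ)
    (z : Fin (1 + 0 + 1) → L) (h0 : z 0 = s) (h1 : z 1 = t) :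
    aeval z (frm γ g) = (fv γ g s t : L) := by
  rw [frm_eval, h0, h1]
  unfold fv
  push_cast
  rfl

lemma frm_der {L : Type} [Field L] (γ : ℕ) (g : Polynomial ℤ) (z : Fin (1 + 0 + 1) → L) :
    aeval z (pderiv 0 (frm γ g)) =
      ∑ i ∈ Finset.range (γ + 1), (g.coeff i : L) * ((i : L) * z 0 ^ (i - 1)) * z 1 ^ (γ - i) := by
  unfold frm
  rw [map_sum, map_sum]
  refine Finset.sum_congr rfl fun i _ => ?_
  have h10 : pderiv (0 : Fin (1 + 0 + 1)) (X 1 : MvPolynomial (Fin (1 + 0 + 1)) ℤ) = 0 :=
    pderiv_X_of_ne (by decide)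
  rw [pderiv_mul, pderiv_mul, pderiv_C, zero_mul, zero_add, pderiv_pow, pderiv_pow, h10,
    pderiv_X_self]
  simp

lemma dim0 : R7.DimGE 1 G0 := by
  refine ⟨![0, 1], fun P hP => ?_⟩
  have h1 : ∀ z : Fin 2 → ℚ, aeval z P = 0 := by
    intro z
    have h2 := hP ![(z 0 : ℂ), (z 1 : ℂ)] (fun k => k.elim0)
    have h3 : (fun i => ![(z 0 : ℂ), (z 1 : ℂ)] (![0, 1] i)) =
        fun i => algebraMap ℚ ℂ (z i) := by
      funext i
      fin_cases i <;> rfl
    have h5 : aeval (fun i => algebraMap ℚ ℂ (z i)) P = 0 := by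
      rw [← h3]; exact h2
    have h4 := aeval_algebraMap_apply ℂ z P
    have h6 : algebraMap ℚ ℂ (aeval z P) = 0 := by
      rw [← h4]
      exact h5
    exact (map_eq_zero _).1 h6
  apply MvPolynomial.funext
  intro z
  rw [map_zero]
  have := h1 z
  rwa [aeval_eq_eval] at this

lemma smooth0 (γ : ℕ) (g : Polynomial ℤ) (hγ : g.natDegree = γ) (hg0 : g ≠ 0)
    (hg : Squarefree (g.map (Int.castRingHom ℚ))) :
    R7.SmoothPair 0 G0 (fun (_ : Fin 1) (_ : Fin 1) => frm γ g) := by
  intro z hz _
  refine ⟨fun a => a.elim0, fun _ => 0, ?_⟩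
  classical
  rw [Fintype.linearIndependent_iff]
  intro c hc i
  rcases i with i | i
  · exact i.elim0
  have hz0 : aeval z (frm γ g) = 0 := i.2 0
  -- the derivative does not vanish
  have hz1 : z 1 ≠ 0 := by
    intro h1
    rw [frm_eval, Finset.sum_range_succ, Nat.sub_self, pow_zero, mul_one, h1,
      Finset.sum_eq_zero] at hz0
    · rw [zero_add] at hz0
      have h2 : (g.coeff γ : ℂ) ≠ 0 := by
        rw [← hγ]
        exact_mod_cast Polynomial.leadingCoeff_ne_zero.mpr hg0
      have h3 : z 0 ^ γ = 0 := (mul_eq_zero.mp hz0).resolve_left h2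
      have h4 : z 0 = 0 := eq_zero_of_pow_eq_zero h3
      apply hz
      funext j
      fin_cases j
      · exact h4
      · exact h1
    · intro i hi
      have := Finset.mem_range.mp hi
      rw [zero_pow (by omega), mul_zero]
  have hd : aeval z (pderiv 0 (frm γ g)) ≠ 0 := by
    have hsep : (g.map (Int.castRingHom ℚ)).Separable :=
      PerfectField.separable_iff_squarefree.mpr hg
    have hgz : Polynomial.aeval (z 0 / z 1) (g.map (Int.castRingHom ℚ)) = 0 := by
      have h1 : Polynomial.aeval (z 0 / z 1) (g.map (Int.castRingHom ℚ)) =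
          ∑ i ∈ Finset.range (γ + 1), (g.coeff i : ℂ) * (z 0 / z 1) ^ i := by
        rw [Polynomial.aeval_eq_sum_range' (n := γ + 1)
          (lt_of_le_of_lt Polynomial.natDegree_map_le (by omega))]
        refine Finset.sum_congr rfl fun i _ => ?_
        rw [Polynomial.coeff_map, Algebra.smul_def]
        simp
      have h2 : z 1 ^ γ * ∑ i ∈ Finset.range (γ + 1), (g.coeff i : ℂ) * (z 0 / z 1) ^ i = 0 := by
        rw [← hz0, frm_eval, Finset.mul_sum]
        refine Finset.sum_congr rfl fun i hi => ?_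
        have hi' : i ≤ γ := by have := Finset.mem_range.mp hi; omega
        have h3 : z 1 ^ γ = z 1 ^ (γ - i) * z 1 ^ i := by rw [← pow_add]; congr 1; omega
        rw [div_pow, h3]
        field_simp
      rw [h1]
      exact (mul_eq_zero.mp h2).resolve_left (pow_ne_zero _ hz1)
    have h3 := hsep.aeval_derivative_ne_zero hgz
    intro h4
    apply h3
    have hγ1 : 1 ≤ γ := by
      by_contra hcon
      have h0 : γ = 0 := by omega
      rw [h0] at hγ
      rw [Polynomial.natDegree_eq_zero] at hγ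
      obtain ⟨k, rfl⟩ := hγ
      rw [Polynomial.map_C, Polynomial.aeval_C] at hgz
      have h5 : (k : ℂ) = 0 := by simpa using hgz
      have h6 : k = 0 := by exact_mod_cast h5
      exact hg0 (by rw [h6, Polynomial.C_0])
    have h5 : Polynomial.aeval (z 0 / z 1) (Polynomial.derivative (g.map (Int.castRingHom ℚ))) =
        ∑ i ∈ Finset.range (γ + 1), (g.coeff i : ℂ) * ((i : ℂ) * (z 0 / z 1) ^ (i - 1)) := by
      rw [Polynomial.derivative_map, Polynomial.aeval_eq_sum_range' (n := γ)
          (lt_of_le_of_lt Polynomial.natDegree_map_le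
            (lt_of_le_of_lt (Polynomial.natDegree_derivative_le g) (by omega))),
        Finset.sum_range_succ']
      simp only [Nat.cast_zero, zero_mul, mul_zero, add_zero]
      refine Finset.sum_congr rfl fun i _ => ?_
      rw [Polynomial.coeff_map, Polynomial.coeff_derivative, Algebra.smul_def]
      simp
      ring
    have h6 : z 1 ^ (γ - 1) * Polynomial.aeval (z 0 / z 1)
        (Polynomial.derivative (g.map (Int.castRingHom ℚ))) = 0 := by
      rw [← h4, frm_der, h5, Finset.mul_sum]
      refine Finset.sum_congr rfl fun i hi => ?_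
      have hi' : i ≤ γ := by have := Finset.mem_range.mp hi; omega
      rcases Nat.eq_zero_or_pos i with h0 | h0
      · rw [h0]; simp
      have h7 : z 1 ^ (γ - 1) = z 1 ^ (γ - i) * z 1 ^ (i - 1) := by rw [← pow_add]; congr 1; omega
      rw [div_pow, h7]
      field_simp
    exact (mul_eq_zero.mp h6).resolve_left (pow_ne_zero _ hz1)
  have h1 := congrFun hc 0
  rw [Fintype.sum_sum_type, Finset.univ_eq_empty (α := Fin 0), Finset.sum_empty, zero_add,
    Finset.sum_apply, Finset.sum_eq_single i] at h1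
  · simp only [Sum.elim_inr, Pi.smul_apply, smul_eq_mul, Pi.zero_apply] at h1
    exact (mul_eq_zero.mp h1).resolve_right hd
  · intro j _ hj
    exact absurd (Subsingleton.elim j i) hj
  · intro h
    exact absurd (Finset.mem_univ i) h

section nf
variable {K : Type} [Field K] [NumberField K]

/-- a basis of the plane -/
def T0 (K : Type) [Field K] : Matrix (Fin (1 + 0 + 1)) (Fin (1 + 1)) K :=
  !![1, 0; 0, 1]

omit [NumberField K] in
lemma T0_basis (x : Fin (1 + 0 + 1) → K) : R7.IsTangentBasis G0 x (T0 K) := by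
  constructor
  · rw [Fintype.linearIndependent_iff]
    intro c hc
    have h0 := congrFun hc 0
    have h1 := congrFun hc 1
    simp [T0, Fin.sum_univ_succ] at h0 h1
    intro i
    fin_cases i
    · exact h0
    · exact h1
  · intro k
    exact k.elim0

lemma canonical0 (x : Fin (1 + 0 + 1) → K) :
    R7.canonicalHeight x (T0 K) = -2 * Height.logHeight x / Module.finrank ℚ K := by
  unfold R7.canonicalHeight
  rw [height_signs]
  · push_cast
    ring
  · intro h
    have h1 : ((T0 K).submatrix ![0, 1] id).det = 0 := congrFun h ![0, 1]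
    have h2 : ((T0 K).submatrix ![0, 1] id).det = 1 := by
      rw [Matrix.det_fin_two]
      simp [T0]
    exact one_ne_zero (h2.symm.trans h1)
  · intro J
    rw [Matrix.det_fin_two]
    simp only [Matrix.submatrix_apply, id]
    generalize J 0 = a
    generalize J 1 = b
    fin_cases a <;> fin_cases b <;> simp [T0]

lemma divisor0 (F : MvPolynomial (Fin (1 + 0 + 1)) ℤ) (γ : ℕ) (x : Fin (1 + 0 + 1) → K)
    (hx0 : x ≠ 0) (hF : aeval x F ≠ 0) :
    R7.divisorHeight (fun (_ : Fin 1) (_ : Fin 1) => F) (fun _ _ => γ) x =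
      γ * Height.logHeight x / Module.finrank ℚ K := by
  have hloc : ∀ (v : AbsoluteValue K ℝ),
      R7.localHeight (fun (_ : Fin 1) => F) (fun _ => γ) x v =
        γ * Real.log (⨆ j, v (x j)) - Real.log (v (aeval x F)) := by
    intro v
    unfold R7.localHeight
    rw [ciSup_unique, Real.log_div (v.pos hF).ne' (pow_ne_zero _ (sup_pos hx0 v).ne'),
      Real.log_pow, neg_sub]
  have hi : ∑ v : InfinitePlace K, v.mult * R7.localHeight (fun (_ : Fin 1) => F) (fun _ => γ) x v.1 +
      ∑ᶠ v : FinitePlace K, R7.localHeight (fun (_ : Fin 1) => F) (fun _ => γ) x v.1 =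
        γ * Height.logHeight x := by
    have h1 := logHeight_sum hx0
    have h2 := prod_formula hF
    have h3 : ∑ᶠ v : FinitePlace K, R7.localHeight (fun (_ : Fin 1) => F) (fun _ => γ) x v.1 =
        γ * ∑ᶠ v : FinitePlace K, Real.log (⨆ j, v (x j)) -
          ∑ᶠ v : FinitePlace K, Real.log (v (aeval x F)) := by
      have h3a : (γ : ℝ) * ∑ᶠ v : FinitePlace K, Real.log (⨆ j, v (x j)) =
          ∑ᶠ v : FinitePlace K, (γ : ℝ) * Real.log (⨆ j, v (x j)) := by
        exact mul_finsum (fun v : FinitePlace K => Real.log (⨆ j, v (x j))) (γ : ℝ)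
      rw [h3a, ← finsum_sub_distrib]
      · exact finsum_congr fun v => hloc v.1
      · refine (sup_fin hx0).subset fun v hv h => hv ?_
        change (γ : ℝ) * Real.log (⨆ i, v (x i)) = 0
        rw [h, Real.log_one, mul_zero]
      · refine (fin_ne_one hF).subset fun v hv h => hv ?_
        change Real.log (v (aeval x F)) = 0
        rw [h, Real.log_one]
    have h4 : ∑ v : InfinitePlace K, v.mult * R7.localHeight (fun (_ : Fin 1) => F) (fun _ => γ) x v.1 =
        γ * ∑ v : InfinitePlace K, v.mult * Real.log (⨆ j, v (x j)) -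
        ∑ v : InfinitePlace K, v.mult * Real.log (v (aeval x F)) := by
      rw [Finset.mul_sum, ← Finset.sum_sub_distrib]
      refine Finset.sum_congr rfl fun v _ => ?_
      rw [hloc v.1]
      have : (v.mult : ℝ) * (γ * Real.log (⨆ j, v.1 (x j)) - Real.log (v.1 (aeval x F))) =
        γ * (v.mult * Real.log (⨆ j, v.1 (x j))) - v.mult * Real.log (v.1 (aeval x F)) := by ring
      exact this
    rw [h3, h4, h1]
    linarith
  unfold R7.divisorHeight
  rw [Fin.sum_univ_one, hi]

/-- the height of a pair of coprime integers -/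
lemma log_le_height2 (h1 : Module.finrank ℚ K = 1) (s t : ℤ) (hst : IsCoprime s t)
    (x : Fin (1 + 0 + 1) → K) (h0 : x 0 = s) (hx1 : x 1 = t) :
    Real.log (max |(s : ℝ)| |(t : ℝ)|) ≤ Height.logHeight x := by
  have hne : s ≠ 0 ∨ t ≠ 0 := by
    by_contra hcon
    push Not at hcon
    rw [hcon.1, hcon.2] at hst
    exact not_isCoprime_zero_zero hst
  have hx : x ≠ 0 := by
    intro h
    rcases hne with h2 | h2
    · have h3 : x 0 = 0 := congrFun h 0
      rw [h0] at h3
      exact h2 (by exact_mod_cast h3)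
    · have h3 : x 1 = 0 := congrFun h 1
      rw [hx1] at h3
      exact h2 (by exact_mod_cast h3)
  have hle : ∀ (v : AbsoluteValue K ℝ) (j : Fin (1 + 0 + 1)), v (x j) ≤ ⨆ j, v (x j) :=
    fun v j => le_ciSup (f := fun j => v (x j)) (Finite.bddAbove_range _) j
  have hMpos : 0 < max |(s : ℝ)| |(t : ℝ)| := by
    rcases hne with h2 | h2
    · exact lt_of_lt_of_le (abs_pos.mpr (by exact_mod_cast h2)) (le_max_left _ _)
    · exact lt_of_lt_of_le (abs_pos.mpr (by exact_mod_cast h2)) (le_max_right _ _)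
  rw [logHeight_sum hx]
  have hmult : ∑ v : InfinitePlace K, (v.mult : ℝ) = 1 := by
    rw [← Nat.cast_one, ← h1, ← InfinitePlace.sum_mult_eq]
    push_cast
    rfl
  have h3 : Real.log (max |(s : ℝ)| |(t : ℝ)|) ≤
      ∑ v : InfinitePlace K, (v.mult : ℝ) * Real.log (⨆ j, v (x j)) := by
    have h4 : ∑ v : InfinitePlace K, (v.mult : ℝ) * Real.log (max |(s : ℝ)| |(t : ℝ)|) ≤
        ∑ v : InfinitePlace K, (v.mult : ℝ) * Real.log (⨆ j, v (x j)) := by
      refine Finset.sum_le_sum fun v _ => mul_le_mul_of_nonneg_left ?_ (Nat.cast_nonneg _)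
      refine Real.log_le_log hMpos (max_le ?_ ?_)
      · have h5 := hle v.1 0
        rw [h0] at h5
        rw [← RTHaux.inf_int v s]
        exact h5
      · have h5 := hle v.1 1
        rw [hx1] at h5
        rw [← RTHaux.inf_int v t]
        exact h5
    rwa [← Finset.sum_mul, hmult, one_mul] at h4
  have h4 : 0 ≤ ∑ᶠ v : FinitePlace K, Real.log (⨆ j, v (x j)) := by
    refine finsum_nonneg fun v => Real.log_nonneg ?_
    obtain ⟨p, q, hpq⟩ := hst
    have h5 : (1 : K) = (p : K) * (s : K) + (q : K) * (t : K) := by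
      have := congrArg (fun z : ℤ => (z : K)) hpq
      push_cast at this
      exact this.symm
    have h6 : v (1 : K) ≤ max (v ((p : K) * (s : K))) (v ((q : K) * (t : K))) := by
      rw [h5]
      exact FinitePlace.add_le v _ _
    rw [map_one, map_mul, map_mul] at h6
    have e0 : v (s : K) ≤ ⨆ j, v (x j) := by
      rw [← h0]
      exact hle v.1 0
    have e1 : v (t : K) ≤ ⨆ j, v (x j) := by
      rw [← hx1]
      exact hle v.1 1
    have h7 : v (p : K) * v (s : K) ≤ 1 * ⨆ j, v (x j) :=
      mul_le_mul (PLCaux.int_le_one v p) e0 (apply_nonneg v _) zero_le_one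
    have h8 : v (q : K) * v (t : K) ≤ 1 * ⨆ j, v (x j) :=
      mul_le_mul (PLCaux.int_le_one v q) e1 (apply_nonneg v _) zero_le_one
    rw [one_mul] at h7 h8
    exact h6.trans (max_le h7 h8)
  linarith

end nf

end Pool.Agent.U964.SZ
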