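import Mathlib
import Pool.Agent.U964.SZ.BF

/-!
# Binary forms at sparse points: the inequality
-/

set_option autoImplicit false

namespace Pool.Agent.U964.SZ

open MvPolynomial NumberField Pool.Agent.Y724.T4
open Pool.Agent.Y670.RD (fv fv_le fv_zero fv_eq)

/-- the coordinates -/
noncomputable def xq : Fin (1 + 0 + 1) → MvPolynomial (Fin 4) ℤ := ![X 0, X 1]

/-- all polynomials -/
noncomputable def Pq : (Fin 1 × Fin 1 × Fin 1) ⊕
    ((Fin (1 + 0 + 1) ⊕ (Fin 1 × Fin (1 + 0 + 1) × Fin 1) ⊕ Unit) × Fin 1) →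
    MvPolynomial (Fin 4) ℤ :=
  Sum.elim (fun _ => 1) (fun k => Sum.elim xq (Sum.elim (fun _ => X 3) (fun _ => X 2)) k.1)

/-- the abc inequality for the values of a binary form at sparse points -/
theorem bf_core (K : Type) [Field K] [NumberField K] (h1 : Module.finrank ℚ K = 1)
    (g : Polynomial ℤ) (γ : ℕ) (hγ : g.natDegree = γ) (h2γ : 2 ≤ γ)
    (hg : Squarefree (g.map (Int.castRingHom ℚ)))
    (S : Finset ℕ) (hS : ∀ p ∈ S, p.Prime) (l m : ℕ) (B ε : ℝ) (hε : 0 < ε) :
    ∃ (δ C : ℝ), 0 < δ ∧ ∀ (s t : ℤ), IsCoprime s t →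
      ∀ (ρ : ℕ) (τ : ℚ), 0 < ρ → (ρ : ℚ) ^ m = fv γ g s t * τ →
      (∀ i, ∃ (u : Fin l → ℚ) (k : Fin l → ℤ), (∀ j, R6.IsSUnit S (u j)) ∧
        (∀ j, |(k j : ℝ)| ≤ B * (max |(s : ℝ)| |(t : ℝ)|) ^ δ) ∧
        (![(s : ℚ), t, ρ, τ] : Fin 4 → ℚ) i = ∑ j, u j * k j) →
      (γ - 2 - ε) * Real.log (max |(s : ℝ)| |(t : ℝ)|) ≤ Real.log ρ + C := by
  classical
  have hg0 : g ≠ 0 := by
    rintro rfl
    rw [Polynomial.natDegree_zero] at hγ
    omega
  obtain ⟨D, l', C0, hC0, hshp⟩ := shp Pq (4 * l)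
  obtain ⟨D1, C1, hC1, hsize⟩ := size_poly Pq
  set A1 : ℝ := D1 * (γ * m + γ) + 1 with hA1
  have hA1p : 0 < A1 := by positivity
  set ε' : ℝ := ε / A1 with hε'
  have hε'0 : 0 < ε' := by positivity
  set cF : ℝ := 1 + ∑ i ∈ Finset.range (γ + 1), |(g.coeff i : ℝ)| with hcF
  have hcF1 : 1 ≤ cF := by
    have : 0 ≤ ∑ i ∈ Finset.range (γ + 1), |(g.coeff i : ℝ)| :=
      Finset.sum_nonneg fun _ _ => abs_nonneg _
    rw [hcF]; linarith
  obtain ⟨δ', Φ, k, C, hδ', hΦh, ⟨z0, -, hΦz0⟩, hmain⟩ :=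
    R7.main7 1 0 0 1 1 G0 (fun _ => 1) (fun k => k.elim0) (fun _ _ => frm γ g) (fun _ _ => γ)
      (fun _ _ => frm_hom γ g) dim0 (smooth0 γ g hγ hg0 hg) S hS 1 l' m 0
      (fun _ _ => Nat.zero_le _) 0 (C0 * (1 + |B|) ^ D) ε' hε'0
  have hΦ0 : Φ ≠ 0 := by
    intro h
    rw [h, map_zero] at hΦz0
    exact hΦz0 rfl
  obtain ⟨C2, hC2, hroot⟩ := root_height2 Φ hΦ0 k hΦh
  refine ⟨δ' / (D + 1), ε' * (D1 * Real.log cF + C1) + |C| + γ * C2, by positivity, ?_⟩
  intro s t hst ρ τ hρ hτ hshort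
  set M : ℝ := max |(s : ℝ)| |(t : ℝ)| with hM
  have hne : s ≠ 0 ∨ t ≠ 0 := by
    by_contra hcon
    push Not at hcon
    rw [hcon.1, hcon.2] at hst
    exact not_isCoprime_zero_zero hst
  have hM1 : 1 ≤ M := by
    rcases hne with h2 | h2
    · exact (by exact_mod_cast Int.one_le_abs h2 : (1 : ℝ) ≤ |(s : ℝ)|).trans (le_max_left _ _)
    · exact (by exact_mod_cast Int.one_le_abs h2 : (1 : ℝ) ≤ |(t : ℝ)|).trans (le_max_right _ _)
  have hM0 : 0 < M := by linarith
  have hlM : 0 ≤ Real.log M := Real.log_nonneg hM1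
  have hρR : (1 : ℝ) ≤ ρ := by exact_mod_cast hρ
  have hlρ : 0 ≤ Real.log ρ := Real.log_nonneg hρR
  have hlcF : 0 ≤ Real.log cF := Real.log_nonneg hcF1
  have hD1R : (0 : ℝ) ≤ D1 := Nat.cast_nonneg _
  have hγR : (0 : ℝ) ≤ γ := Nat.cast_nonneg _
  have hCC : 0 ≤ ε' * (D1 * Real.log cF + C1) + |C| + γ * C2 := by positivity
  by_cases hρM : M ^ γ ≤ ρ
  · have h2 : γ * Real.log M ≤ Real.log ρ := by
      rw [← Real.log_pow]
      exact Real.log_le_log (by positivity) hρM
    have h3 : 0 ≤ (2 + ε) * Real.log M := mul_nonneg (by linarith) hlM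
    linarith
  push Not at hρM
  set z : Fin 4 → ℚ := ![(s : ℚ), t, ρ, τ] with hz
  set F : ℤ := fv γ g s t with hFdef
  have hF0 : F ≠ 0 := by
    intro h
    rw [h] at hτ
    have : (ρ : ℚ) ^ m ≠ 0 := pow_ne_zero _ (by exact_mod_cast hρ.ne')
    apply this
    rw [hτ]
    simp
  -- the point
  set x : Fin (1 + 0 + 1) → K := fun y => ((aeval z (xq y) : ℚ) : K) with hx
  have hx0 : x 0 = (s : K) := by
    have : aeval z (xq 0) = (s : ℚ) := by
      change aeval z (X 0) = _
      rw [aeval_X]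
      rfl
    rw [hx]
    simp only [this]
    exact Rat.cast_intCast s
  have hx1 : x 1 = (t : K) := by
    have : aeval z (xq 1) = (t : ℚ) := by
      change aeval z (X 1) = _
      rw [aeval_X]
      rfl
    rw [hx]
    simp only [this]
    exact Rat.cast_intCast t
  have hxv : x ≠ 0 := by
    intro h
    rcases hne with h2 | h2
    · have h3 : x 0 = 0 := congrFun h 0
      rw [hx0] at h3
      exact h2 (by exact_mod_cast h3)
    · have h3 : x 1 = 0 := congrFun h 1
      rw [hx1] at h3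
      exact h2 (by exact_mod_cast h3)
  have hFx : aeval x (frm γ g) = (F : K) := frm_int γ g s t x hx0 hx1
  have hFx0 : aeval x (frm γ g) ≠ 0 := by
    rw [hFx]
    exact_mod_cast hF0
  have hheight : Real.log M ≤ Height.logHeight x := log_le_height2 h1 s t hst x hx0 hx1
  have hh0 : 0 ≤ Height.logHeight x := hlM.trans hheight
  have hγ2 : (2 : ℝ) ≤ γ := by exact_mod_cast h2γ
  by_cases hΦx : aeval x Φ = 0
  · have h2 := hroot K x hΦx
    rw [h1, Nat.cast_one, mul_one] at h2
    have h3 : γ * Real.log M ≤ γ * C2 := mul_le_mul_of_nonneg_left (hheight.trans h2) hγR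
    have h4 : 0 ≤ (2 + ε) * Real.log M := mul_nonneg (by linarith) hlM
    have h5 : 0 ≤ ε' * (D1 * Real.log cF + C1) + |C| := by positivity
    linarith
  -- the parameters
  set b' : Fin 1 → Fin (1 + 0 + 1) → Fin 1 → K := fun _ _ _ => ((τ : ℚ) : K) with hb'
  have hρK : (ρ : K) = ((aeval z (X 2 : MvPolynomial (Fin 4) ℤ) : ℚ) : K) := by
    rw [aeval_X]
    change (ρ : K) = ((ρ : ℚ) : K)
    push_cast
    rfl
  have hpar : R7.params (omK h1) (R7.data x b' (ρ : K)) = fun k => aeval z (Pq k) := by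
    funext k
    rcases k with k | ⟨k | ⟨k, j, j'⟩ | k, i⟩
    · change (omK h1).repr (omK h1 k.1 * omK h1 k.2.1) k.2.2 = aeval z (1 : MvPolynomial (Fin 4) ℤ)
      have e1 : aeval z (1 : MvPolynomial (Fin 4) ℤ) = 1 := map_one _
      have e2 := omK_repr h1 1 k.2.2
      rw [Rat.cast_one] at e2
      rw [omK_apply, omK_apply, mul_one, e1]
      exact e2
    · exact omK_repr h1 _ i
    · change (omK h1).repr ((τ : ℚ) : K) i = aeval z (X 3 : MvPolynomial (Fin 4) ℤ)
      rw [aeval_X]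
      exact omK_repr h1 _ i
    · change (omK h1).repr (ρ : K) i = aeval z (X 2 : MvPolynomial (Fin 4) ℤ)
      rw [hρK]
      exact omK_repr h1 _ i
  have hmul : R7.IsMultiple (fun (_ : Fin 1) (_ : Fin 1) => frm γ g) m 0 x b' (ρ : K) := by
    intro i y
    rw [pow_zero, mul_one, Fin.sum_univ_one, hFx, hb']
    have h2 : ((ρ : K)) ^ m = (((F : ℚ) * τ : ℚ) : K) := by
      rw [← hτ]
      push_cast
      rfl
    rw [h2, Rat.cast_mul, Rat.cast_intCast]
  set H : ℕ := R7.size (R7.params (omK h1) (R7.data x b' (ρ : K))) with hH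
  have hle : ∀ k, max (R7.params (omK h1) (R7.data x b' (ρ : K)) k).num.natAbs
        (R7.params (omK h1) (R7.data x b' (ρ : K)) k).den ≤ H := fun k =>
      Finset.le_sup (f := fun i => max (R7.params (omK h1) (R7.data x b' (ρ : K)) i).num.natAbs
        (R7.params (omK h1) (R7.data x b' (ρ : K)) i).den) (Finset.mem_univ _)
  have hsH : |(s : ℝ)| ≤ H := by
    have h2 := hle (Sum.inr (Sum.inl 0, 0))
    have h3 : R7.params (omK h1) (R7.data x b' (ρ : K)) (Sum.inr (Sum.inl 0, 0)) = (s : ℚ) := by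
      rw [hpar]
      change aeval z (X 0) = _
      rw [aeval_X]
      rfl
    rw [h3] at h2
    have h4 : s.natAbs ≤ H := by
      refine le_trans (le_of_eq ?_) ((le_max_left _ _).trans h2)
      simp
    rw [← Int.cast_abs, ← Nat.cast_natAbs]
    exact_mod_cast h4
  have htH : |(t : ℝ)| ≤ H := by
    have h2 := hle (Sum.inr (Sum.inl 1, 0))
    have h3 : R7.params (omK h1) (R7.data x b' (ρ : K)) (Sum.inr (Sum.inl 1, 0)) = (t : ℚ) := by
      rw [hpar]
      change aeval z (X 1) = _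
      rw [aeval_X]
      rfl
    rw [h3] at h2
    have h4 : t.natAbs ≤ H := by
      refine le_trans (le_of_eq ?_) ((le_max_left _ _).trans h2)
      simp
    rw [← Int.cast_abs, ← Nat.cast_natAbs]
    exact_mod_cast h4
  have hMH : M ≤ H := max_le hsH htH
  have hsh : R7.IsShortSum S l' (C0 * (1 + |B|) ^ D) δ'
      (R7.params (omK h1) (R7.data x b' (ρ : K))) := by
    have hcd : (1 : ℝ) ≤ M ^ (δ' / (D + 1)) := Real.one_le_rpow hM1 (by positivity)
    set R : ℝ := (1 + |B|) * M ^ (δ' / (D + 1)) with hR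
    have hR1 : 1 ≤ R := by
      have := abs_nonneg B
      nlinarith
    have hBR : B * M ^ (δ' / (D + 1)) ≤ R := by
      refine mul_le_mul_of_nonneg_right ?_ (by linarith)
      linarith [le_abs_self B]
    obtain ⟨u, mm, hu, hmm, hzu⟩ := joint_short (S := S) (R := R) (by linarith) z
      (fun i => by
        obtain ⟨u, kk, e1, e2, e3⟩ := hshort i
        exact ⟨u, kk, e1, fun j => (e2 j).trans hBR, e3⟩)
    obtain ⟨u', m', hu', hm', hzu'⟩ := hshp S hS z R hR1 u mm hu hmm hzu
    refine ⟨u', m', hu', fun j i => (hm' j i).trans ?_, fun i => ?_⟩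
    · rw [hR, mul_pow, ← mul_assoc]
      refine mul_le_mul_of_nonneg_left ?_ (by positivity)
      rw [← Real.rpow_natCast, ← Real.rpow_mul (by linarith)]
      calc M ^ (δ' / (D + 1) * D) ≤ M ^ δ' := by
            refine Real.rpow_le_rpow_of_exponent_le hM1 ?_
            rw [div_mul_eq_mul_div, div_le_iff₀ (by positivity)]
            nlinarith
        _ ≤ (H : ℝ) ^ δ' := Real.rpow_le_rpow (by linarith) hMH hδ'.le
    · rw [hpar]
      exact hzu' i
  have hfin := (hmain 1 le_rfl K (omK h1) x b' (ρ : K) (fun k => k.elim0)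
    (by exact_mod_cast hρ.ne') hmul hsh hΦx _ (T0_basis x)).1
  rw [canonical0, divisor0 (frm γ g) γ x hxv hFx0, omK_logDisc h1 S, h1, Nat.cast_one, div_one,
    div_one] at hfin
  -- the size
  have hlogH : Real.log H ≤ D1 * ((γ * m + γ) * Real.log M + Real.log cF) + C1 := by
    have h2 : (H : ℕ) = R6.size (fun k => aeval z (Pq k)) := by
      rw [hH, hpar]
      rfl
    rw [h2]
    refine (hsize z).trans ?_
    have hMp : ∀ i j : ℕ, i ≤ j → M ^ i ≤ M ^ j := fun i j hij => pow_le_pow_right₀ hM1 hij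
    have hbig : M ≤ cF * M ^ (γ * m + γ) := by
      calc M = 1 * M ^ 1 := by ring
        _ ≤ cF * M ^ (γ * m + γ) := mul_le_mul hcF1 (hMp _ _ (by omega)) (by positivity) (by linarith)
    have h1big : 1 ≤ cF * M ^ (γ * m + γ) := hM1.trans hbig
    have h3 : (R6.size z : ℝ) ≤ cF * M ^ (γ * m + γ) := by
      have hz' : ∀ i, ((max (z i).num.natAbs (z i).den : ℕ) : ℝ) ≤ cF * M ^ (γ * m + γ) := by
        intro i
        fin_cases i
        · change ((max (s : ℚ).num.natAbs (s : ℚ).den : ℕ) : ℝ) ≤ _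
          rw [Rat.num_intCast, Rat.den_intCast, Nat.cast_max, Nat.cast_natAbs, Int.cast_abs,
            Nat.cast_one]
          exact max_le ((le_max_left _ _).trans hbig) h1big
        · change ((max (t : ℚ).num.natAbs (t : ℚ).den : ℕ) : ℝ) ≤ _
          rw [Rat.num_intCast, Rat.den_intCast, Nat.cast_max, Nat.cast_natAbs, Int.cast_abs,
            Nat.cast_one]
          exact max_le ((le_max_right _ _).trans hbig) h1big
        · change ((max (ρ : ℚ).num.natAbs (ρ : ℚ).den : ℕ) : ℝ) ≤ _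
          rw [Rat.num_natCast, Rat.den_natCast, Int.natAbs_natCast, Nat.cast_max, Nat.cast_one]
          refine max_le (hρM.le.trans ?_) h1big
          calc M ^ γ = 1 * M ^ γ := by ring
            _ ≤ cF * M ^ (γ * m + γ) :=
              mul_le_mul hcF1 (hMp _ _ (by omega)) (by positivity) (by linarith)
        · change ((max τ.num.natAbs τ.den : ℕ) : ℝ) ≤ _
          refine sz_num ⟨(ρ : ℤ) ^ m, F, hF0, ?_, ?_, ?_⟩
          · push_cast
            rw [hτ, mul_comm, mul_div_assoc, div_self, mul_one]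
            exact_mod_cast hF0
          · push_cast
            rw [abs_of_nonneg (by positivity)]
            calc (ρ : ℝ) ^ m ≤ (M ^ γ) ^ m := pow_le_pow_left₀ (by linarith) hρM.le m
              _ = 1 * M ^ (γ * m) := by rw [← pow_mul, one_mul]
              _ ≤ cF * M ^ (γ * m + γ) :=
                mul_le_mul hcF1 (hMp _ _ (by omega)) (by positivity) (by linarith)
          · refine (fv_le γ g s t).trans ?_
            rw [← hM]
            refine mul_le_mul ?_ (hMp _ _ (by omega)) (by positivity) (by linarith)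
            rw [hcF]; linarith
      unfold R6.size
      obtain ⟨i0, -, hi0⟩ := Finset.exists_mem_eq_sup (Finset.univ : Finset (Fin 4))
        Finset.univ_nonempty (fun i => max (z i).num.natAbs (z i).den)
      rw [hi0]
      exact hz' i0
    have h4 : Real.log (R6.size z) ≤ (γ * m + γ) * Real.log M + Real.log cF := by
      by_cases h0 : R6.size z = 0
      · rw [h0, Nat.cast_zero, Real.log_zero]
        positivity
      · have h5 := Real.log_le_log (by exact_mod_cast Nat.pos_of_ne_zero h0) h3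
        rw [Real.log_mul (by positivity) (by positivity), Real.log_pow] at h5
        push_cast at h5
        linarith
    have h5 := mul_le_mul_of_nonneg_left h4 hD1R
    linarith
  have hcnt := counting_le h1 S ρ hρ
  have h8 : ε' * (D1 * ((γ * m + γ) * Real.log M)) ≤ ε * Real.log M := by
    have h9 : ε' * (D1 * ((γ * m + γ) * Real.log M)) =
        ε * Real.log M * ((D1 * (γ * m + γ)) / A1) := by
      rw [hε']
      field_simp
    rw [h9]
    have h10 : (D1 * (γ * m + γ) : ℝ) / A1 ≤ 1 := by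
      rw [div_le_one hA1p, hA1]
      linarith
    have h11 : 0 ≤ ε * Real.log M := by positivity
    nlinarith
  have h12 : ε' * Real.log H ≤ ε' * (D1 * ((γ * m + γ) * Real.log M + Real.log cF) + C1) :=
    mul_le_mul_of_nonneg_left hlogH hε'0.le
  have h13 : (γ - 2) * Real.log M ≤ (γ - 2) * Height.logHeight x :=
    mul_le_mul_of_nonneg_left hheight (by linarith)
  have h14 := le_abs_self C
  have h15 : 0 ≤ γ * C2 := by positivity
  nlinarith

end Pool.Agent.U964.SZ
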