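import Mathlib
import Pool.Agent.U964.SZ.Uni

/-!
# The inequality for the values of an arbitrary squarefree binary form at sparse points
-/

set_option autoImplicit false

namespace Pool.Agent.U964.SZ

open Polynomial
open Pool.Agent.Y670.RD (fv fv_le fv_mul fvq)

theorem fv_reflect {M : ℕ} (f : ℤ[X]) (s t : ℤ) : fv M f s t = fv M (f.reflect M) t s := by
  unfold fv
  rw [← Finset.sum_range_reflect (fun i => f.coeff i * s ^ i * t ^ (M - i)) (M + 1)]
  refine Finset.sum_congr rfl fun i hi => ?_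
  have hi' : i ≤ M := by have := Finset.mem_range.mp hi; omega
  rw [coeff_reflect, revAt_le hi']
  have e1 : M + 1 - 1 - i = M - i := by omega
  have e2 : M - (M - i) = i := by omega
  rw [e1, e2]
  ring

theorem fv_shift {M : ℕ} (f : ℤ[X]) (hf : f.natDegree ≤ M) (s t k : ℤ) (ht : t ≠ 0) :
    fv M (f.comp (X + C k)) (s - k * t) t = fv M f s t := by
  have hd : (f.comp (X + C k)).natDegree ≤ M := by
    rw [natDegree_comp, natDegree_X_add_C, mul_one]
    exact hf
  have h1 := fvq hd (s := s - k * t) ht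
  have h2 := fvq hf (s := s) ht
  have htq : (t : ℚ) ≠ 0 := by exact_mod_cast ht
  have e : ((s - k * t : ℤ) : ℚ) / (t : ℚ) + (k : ℚ) = (s : ℚ) / t := by
    push_cast
    field_simp
    ring
  have h3 : aeval (((s - k * t : ℤ) : ℚ) / (t : ℚ)) (f.comp (X + C k)) =
      aeval ((s : ℚ) / t) f := by
    rw [aeval_comp, map_add, aeval_X, aeval_C]
    congr 1
    rw [← e]
    simp
  rw [h3] at h1
  have : ((fv M (f.comp (X + C k)) (s - k * t) t : ℤ) : ℚ) = ((fv M f s t : ℤ) : ℚ) := by
    rw [h1, h2]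
  exact_mod_cast this

theorem sq_mirror {f : ℚ[X]} (hf : Squarefree f) : Squarefree f.mirror := by
  intro a ha
  obtain ⟨b, hb⟩ := ha
  have h1 : f = a.mirror * a.mirror * b.mirror := by
    rw [← mirror_mul_of_domain, ← mirror_mul_of_domain, ← hb, mirror_mirror]
  have h2 := hf a.mirror ⟨b.mirror, h1⟩
  have h3 := natDegree_eq_zero_of_isUnit h2
  rw [mirror_natDegree] at h3
  have h4 : a ≠ 0 := by
    rintro rfl
    rw [mirror_zero] at h2
    exact not_isUnit_zero h2
  rw [eq_C_of_natDegree_eq_zero h3] at h4 ⊢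
  refine isUnit_C.mpr (isUnit_iff_ne_zero.mpr fun h5 => h4 (by rw [h5, C_0]))

theorem sq_reverse {f : ℚ[X]} (hf : Squarefree f) : Squarefree f.reverse := by
  have h1 := sq_mirror hf
  unfold mirror at h1
  exact h1.squarefree_of_dvd (dvd_mul_right _ _)

theorem sq_reflect {f : ℚ[X]} (hf : Squarefree f) {M : ℕ}
    (hM : f.natDegree = M ∨ f.natDegree + 1 = M) : Squarefree (f.reflect M) := by
  rcases hM with hM | hM
  · rw [← hM]
    exact sq_reverse hf
  · have hf0 : f ≠ 0 := hf.ne_zero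
    have e : f.reflect M = X * f.reverse := by
      ext i
      rw [coeff_reflect]
      rcases Nat.eq_zero_or_pos i with hi | hi
      · subst hi
        rw [revAt_le (Nat.zero_le _), coeff_X_mul_zero]
        exact coeff_eq_zero_of_natDegree_lt (by omega)
      · obtain ⟨j, rfl⟩ : ∃ j, i = j + 1 := ⟨i - 1, by omega⟩
        rw [coeff_X_mul]
        unfold reverse
        rw [coeff_reflect]
        rcases le_or_gt j f.natDegree with hj | hj
        · rw [revAt_le (by omega), revAt_le hj]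
          congr 1
          omega
        · rw [revAt_eq_self_of_lt (by omega), revAt_eq_self_of_lt hj]
          rw [coeff_eq_zero_of_natDegree_lt (by omega), coeff_eq_zero_of_natDegree_lt hj]
    rw [e]
    refine (squarefree_mul_iff).mpr ⟨?_, irreducible_X.squarefree, sq_reverse hf⟩
    refine IsCoprime.isRelPrime ((irreducible_X.coprime_iff_not_dvd).mpr ?_)
    rw [X_dvd_iff, coeff_zero_reverse]
    exact leadingCoeff_ne_zero.mpr hf0

/-- the form after the change of variables `(s, t) ↦ (t, s - k t)` -/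
theorem change (f : ℤ[X]) (γ : ℕ) (hdeg : f.natDegree = γ ∨ f.natDegree + 1 = γ)
    (hsq : Squarefree (f.map (Int.castRingHom ℚ))) : ∃ (k : ℤ) (h : ℤ[X]), h.natDegree = γ ∧
      Squarefree (h.map (Int.castRingHom ℚ)) ∧
      ∀ s t : ℤ, t ≠ 0 → fv γ h t (s - k * t) = fv γ f s t := by
  have hinj : Function.Injective (Int.castRingHom ℚ) := Int.cast_injective
  have hf0 : f ≠ 0 := by
    rintro rfl
    rw [Polynomial.map_zero] at hsq
    exact hsq.ne_zero rfl
  obtain ⟨k, hk⟩ : ∃ k : ℤ, f.eval k ≠ 0 := by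
    by_contra hcon
    push Not at hcon
    apply hf0
    exact Polynomial.funext fun x => by rw [hcon x, eval_zero]
  set f1 : ℤ[X] := f.comp (X + C k) with hf1
  have hf1d : f1.natDegree = f.natDegree := by
    rw [hf1, natDegree_comp, natDegree_X_add_C, mul_one]
  have hf10 : f1.coeff 0 = f.eval k := by
    rw [coeff_zero_eq_eval_zero, hf1, eval_comp]
    simp
  have hf1sq : Squarefree (f1.map (Int.castRingHom ℚ)) := by
    have hsep : (f.map (Int.castRingHom ℚ)).Separable :=
      PerfectField.separable_iff_squarefree.mpr hsq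
    have h1 : (f1.map (Int.castRingHom ℚ)) =
        (f.map (Int.castRingHom ℚ)).comp (X + C ((k : ℤ) : ℚ)) := by
      rw [hf1, Polynomial.map_comp, Polynomial.map_add, Polynomial.map_X, Polynomial.map_C,
        eq_intCast (Int.castRingHom ℚ) k]
    rw [h1]
    intro a ha
    have h2 : a.comp (X - C ((k : ℤ) : ℚ)) * a.comp (X - C ((k : ℤ) : ℚ)) ∣
        f.map (Int.castRingHom ℚ) := by
      obtain ⟨b, hb⟩ := ha
      refine ⟨b.comp (X - C ((k : ℤ) : ℚ)), ?_⟩
      rw [← mul_comp, ← mul_comp, ← hb, comp_assoc]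
      simp
    have h3 := natDegree_eq_zero_of_isUnit (hsq _ h2)
    rw [natDegree_comp, natDegree_X_sub_C, mul_one] at h3
    have h4 : a ≠ 0 := by
      rintro rfl
      obtain ⟨b, hb⟩ := ha
      rw [zero_mul, zero_mul, ← h1] at hb
      have h5 := (Polynomial.map_eq_zero_iff hinj).1 hb
      rw [h5, coeff_zero] at hf10
      exact hk hf10.symm
    rw [eq_C_of_natDegree_eq_zero h3] at h4 ⊢
    exact isUnit_C.mpr (isUnit_iff_ne_zero.mpr fun h5 => h4 (by rw [h5, C_0]))
  refine ⟨k, f1.reflect γ, ?_, ?_, ?_⟩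
  · apply natDegree_eq_of_le_of_coeff_ne_zero
    · rw [natDegree_le_iff_coeff_eq_zero]
      intro i hi
      rw [coeff_reflect, revAt_eq_self_of_lt hi]
      exact coeff_eq_zero_of_natDegree_lt (by omega)
    · rw [coeff_reflect, revAt_le le_rfl, Nat.sub_self, hf10]
      exact hk
  · have e : (f1.reflect γ).map (Int.castRingHom ℚ) = (f1.map (Int.castRingHom ℚ)).reflect γ :=
      (reflect_map (Int.castRingHom ℚ) f1 γ).symm
    rw [e]
    apply sq_reflect hf1sq
    rw [natDegree_map_eq_of_injective hinj, hf1d]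
    exact hdeg
  · intro s t ht
    rw [← fv_reflect, hf1, fv_shift f (by omega) s t k ht]

/-- **sparse values of squarefree binary forms** -/
theorem bf_gen (f : ℤ[X]) (γ : ℕ) (hdeg : f.natDegree = γ ∨ f.natDegree + 1 = γ) (h2γ : 2 ≤ γ)
    (hsq : Squarefree (f.map (Int.castRingHom ℚ)))
    (S : Finset ℕ) (hS : ∀ p ∈ S, p.Prime) (l m : ℕ) (B ε : ℝ) (hε : 0 < ε) :
    ∃ (δ C : ℝ), 0 < δ ∧ ∀ (s t : ℤ), IsCoprime s t → t ≠ 0 → ∀ M : ℝ,
      M = max |(s : ℝ)| |(t : ℝ)| →
      ∀ (ρ : ℕ) (τ : ℚ), 0 < ρ → (ρ : ℚ) ^ m = fv γ f s t * τ →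
      Sp S l (B * M ^ δ) (s : ℚ) → Sp S l (B * M ^ δ) (t : ℚ) →
      Sp S l (B * M ^ δ) (ρ : ℚ) → Sp S l (B * M ^ δ) τ →
      (γ - 2 - ε) * Real.log M ≤ Real.log ρ + C := by
  obtain ⟨k, h, hhd, hhsq, hhv⟩ := change f γ hdeg hsq
  set A : ℝ := 1 + |(k : ℝ)| with hA
  have hA1 : 1 ≤ A := by
    have := abs_nonneg (k : ℝ)
    rw [hA]; linarith
  obtain ⟨δ, C, hδ, hbf⟩ := bf_core ℚ (Module.finrank_self ℚ) h γ hhd h2γ hhsq S hS (l + l) m
    (A * (|B| * A)) ε hε
  refine ⟨min δ 1, |C| + |(γ : ℝ) - 2 - ε| * Real.log A, lt_min hδ one_pos, ?_⟩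
  intro s t hst ht M hM ρ τ hρ hτ h1 h2 h3 h4
  set M' : ℝ := max |(t : ℝ)| |((s - k * t : ℤ) : ℝ)| with hM'
  have ht1 : (1 : ℝ) ≤ |(t : ℝ)| := by exact_mod_cast Int.one_le_abs ht
  have hM1 : 1 ≤ M := by rw [hM]; exact ht1.trans (le_max_right _ _)
  have hM'1 : 1 ≤ M' := ht1.trans (le_max_left _ _)
  have hMM' : M ≤ A * M' := by
    rw [hM]
    refine max_le ?_ ?_
    · have e : (s : ℝ) = ((s - k * t : ℤ) : ℝ) + k * t := by push_cast; ring
      calc |(s : ℝ)| = |((s - k * t : ℤ) : ℝ) + k * t| := by rw [← e]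
        _ ≤ |((s - k * t : ℤ) : ℝ)| + |(k : ℝ)| * |(t : ℝ)| := by
          rw [← abs_mul]; exact abs_add_le _ _
        _ ≤ M' + |(k : ℝ)| * M' := by
          refine add_le_add (le_max_right _ _) (mul_le_mul_of_nonneg_left (le_max_left _ _)
            (abs_nonneg _))
        _ = A * M' := by rw [hA]; ring
    · calc |(t : ℝ)| ≤ M' := le_max_left _ _
        _ = 1 * M' := (one_mul _).symm
        _ ≤ A * M' := mul_le_mul_of_nonneg_right hA1 (by linarith)
  have hM'M : M' ≤ A * M := by
    refine max_le ?_ ?_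
    · calc |(t : ℝ)| ≤ M := by rw [hM]; exact le_max_right _ _
        _ = 1 * M := (one_mul _).symm
        _ ≤ A * M := mul_le_mul_of_nonneg_right hA1 (by linarith)
    · have e : ((s - k * t : ℤ) : ℝ) = (s : ℝ) - k * t := by push_cast; ring
      calc |((s - k * t : ℤ) : ℝ)| = |(s : ℝ) - k * t| := by rw [e]
        _ ≤ |(s : ℝ)| + |(k : ℝ)| * |(t : ℝ)| := by
          rw [← abs_mul]; exact abs_sub _ _
        _ ≤ M + |(k : ℝ)| * M := by
          rw [hM]
          refine add_le_add (le_max_left _ _) (mul_le_mul_of_nonneg_left (le_max_right _ _)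
            (abs_nonneg _))
        _ = A * M := by rw [hA]; ring
  have hR0 : 0 ≤ |B| * A * M' ^ δ := by positivity
  -- the sizes
  have hcoef : B * M ^ min δ 1 ≤ |B| * A * M' ^ δ := by
    calc B * M ^ min δ 1 ≤ |B| * M ^ min δ 1 :=
          mul_le_mul_of_nonneg_right (le_abs_self B) (by positivity)
      _ ≤ |B| * (A * M') ^ min δ 1 := by
          refine mul_le_mul_of_nonneg_left ?_ (abs_nonneg _)
          exact Real.rpow_le_rpow (by linarith) hMM' (le_min hδ.le zero_le_one)
      _ = |B| * (A ^ min δ 1 * M' ^ min δ 1) := by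
          rw [Real.mul_rpow (by linarith) (by linarith)]
      _ ≤ |B| * (A ^ (1 : ℝ) * M' ^ δ) := by
          refine mul_le_mul_of_nonneg_left ?_ (abs_nonneg _)
          exact mul_le_mul (Real.rpow_le_rpow_of_exponent_le hA1 (min_le_right _ _))
            (Real.rpow_le_rpow_of_exponent_le hM'1 (min_le_left _ _)) (by positivity)
            (by positivity)
      _ = |B| * A * M' ^ δ := by rw [Real.rpow_one]; ring
  have hbig : |B| * A * M' ^ δ ≤ A * (|B| * A) * M' ^ δ := by
    have : |B| * A ≤ A * (|B| * A) := le_mul_of_one_le_left (by positivity) hA1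
    exact mul_le_mul_of_nonneg_right this (by positivity)
  have hpad : ∀ {z : ℚ}, Sp S l (B * M ^ min δ 1) z → Sp S (l + l) (A * (|B| * A) * M' ^ δ) z :=
    fun {z} hz => ((hz.mono hcoef).mono hbig).pad (hR0.trans hbig) l
  have hsp : Sp S (l + l) (A * (|B| * A) * M' ^ δ) ((s - k * t : ℤ) : ℚ) := by
    have h5 : Sp S l (A * (|B| * A) * M' ^ δ) (-(k : ℚ) * t) := by
      obtain ⟨u, c, h6, h7, h8⟩ := h2
      refine ⟨u, fun j => -k * c j, h6, fun j => ?_, ?_⟩
      · push_cast
        rw [abs_mul, abs_neg]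
        have h9 := (h7 j).trans hcoef
        have h10 : |(k : ℝ)| ≤ A := by rw [hA]; linarith
        calc |(k : ℝ)| * |(c j : ℝ)| ≤ A * (|B| * A * M' ^ δ) :=
              mul_le_mul h10 h9 (abs_nonneg _) (by positivity)
          _ = A * (|B| * A) * M' ^ δ := by ring
      · rw [h8, Finset.mul_sum]
        refine Finset.sum_congr rfl fun j _ => ?_
        push_cast
        ring
    have h6 := ((h1.mono hcoef).mono hbig).add h5
    have e : ((s - k * t : ℤ) : ℚ) = (s : ℚ) + -(k : ℚ) * t := by push_cast; ring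
    rw [e]
    exact h6
  have hcop : IsCoprime t (s - k * t) := by
    obtain ⟨a, b, hab⟩ := hst
    refine ⟨b + a * k, a, ?_⟩
    rw [← hab]
    ring
  have hb := hbf t (s - k * t) hcop ρ τ hρ (by rw [hhv s t ht]; exact hτ) (fun i => by
    fin_cases i
    · exact hpad h2
    · exact hsp
    · exact hpad h3
    · exact hpad h4)
  change (γ - 2 - ε) * Real.log M' ≤ Real.log ρ + C at hb
  have hlA : 0 ≤ Real.log A := Real.log_nonneg hA1
  have l1 : Real.log M ≤ Real.log A + Real.log M' := by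
    rw [← Real.log_mul (by linarith) (by linarith)]
    exact Real.log_le_log (by linarith) hMM'
  have l2 : Real.log M' ≤ Real.log A + Real.log M := by
    rw [← Real.log_mul (by linarith) (by linarith)]
    exact Real.log_le_log (by linarith) hM'M
  have hC := le_abs_self C
  have key : (γ - 2 - ε) * Real.log M - (γ - 2 - ε) * Real.log M' ≤
      |(γ : ℝ) - 2 - ε| * Real.log A := by
    rw [← mul_sub]
    refine (le_abs_self _).trans ?_
    rw [abs_mul]
    refine mul_le_mul_of_nonneg_left ?_ (abs_nonneg _)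
    rw [abs_le]
    constructor <;> linarith
  linarith

end Pool.Agent.U964.SZ
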